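import Pool.Agent.DQ2.Stmts

set_option autoImplicit false

open MvPolynomial

namespace Pool.Agent.DQ2.H93

theorem wrs : WRS := by
  classical
  intro K L M _ _ _ _ _ _ m e H hH
  have : Infinite K := inferInstance
  have hcard : Module.finrank K L = m := by
    have h1 : Fintype.card (L →ₐ[K] AlgebraicClosure K) = Module.finrank K L :=
      AlgHom.card K L (AlgebraicClosure K)
    rw [← h1, ← Fintype.card_congr e, Fintype.card_fin]
  let b : Module.Basis (Fin m) K L := Module.finBasisOfFinrankEq K L hcard
  let A : Matrix (Fin m) (Fin m) (AlgebraicClosure K) := fun i j => e i (b j)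
  have hli : LinearIndependent (AlgebraicClosure K) A.row := by
    rw [Fintype.linearIndependent_iff]
    intro c hc
    have hd := linearIndependent_monoidHom L (AlgebraicClosure K)
    have hinj : Function.Injective
        (fun i : Fin m => ((e i : L →ₐ[K] AlgebraicClosure K) : L →* AlgebraicClosure K)) := by
      intro i j hij
      apply e.injective
      ext x
      exact DFunLike.congr_fun hij x
    have h2 := hd.comp _ hinj
    rw [Fintype.linearIndependent_iff] at h2
    refine h2 c ?_
    funext x
    have hx : x = ∑ j, b.repr x j • b j := (b.sum_repr x).symm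
    have h3 : ∀ i : Fin m, e i x = ∑ j, algebraMap K _ (b.repr x j) * A i j := by
      intro i
      conv_lhs => rw [hx]
      rw [map_sum]
      refine Finset.sum_congr rfl fun j _ => ?_
      rw [map_smul, Algebra.smul_def]
    simp only [Finset.sum_apply, Pi.smul_apply, smul_eq_mul, Function.comp, Pi.zero_apply]
    have h4 : ∀ i : Fin m, (((e i : L →ₐ[K] AlgebraicClosure K) : L →* AlgebraicClosure K)) x
        = ∑ j, algebraMap K _ (b.repr x j) * A i j := h3
    simp only [h4]
    simp only [Finset.mul_sum]
    rw [Finset.sum_comm]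
    refine Finset.sum_eq_zero fun j _ => ?_
    have h5 := congrFun hc j
    simp only [Finset.sum_apply, Pi.smul_apply, smul_eq_mul, Pi.zero_apply, Matrix.row] at h5
    have h6 : ∑ i, c i * (algebraMap K (AlgebraicClosure K) (b.repr x j) * A i j)
        = algebraMap K (AlgebraicClosure K) (b.repr x j) * ∑ i, c i * A i j := by
      rw [Finset.mul_sum]
      refine Finset.sum_congr rfl fun i _ => ?_
      ring
    rw [h6, h5, mul_zero]
  have hu : IsUnit A := Matrix.linearIndependent_rows_iff_isUnit.1 hli
  by_contra hno
  push Not at hno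
  apply hH
  -- the substituted polynomial
  let S : Fin m × M → MvPolynomial (Fin m × M) (AlgebraicClosure K) :=
    fun q => ∑ j, C (A q.1 j) * X (j, q.2)
  have hev : ∀ z : Fin m × M → AlgebraicClosure K,
      eval z (bind₁ S H) = eval (fun q => ∑ j, A q.1 j * z (j, q.2)) H := by
    intro z
    have h1 := MvPolynomial.eval₂Hom_bind₁ (RingHom.id (AlgebraicClosure K)) z S H
    have h2 : eval z (bind₁ S H) = eval₂Hom (RingHom.id (AlgebraicClosure K)) z (bind₁ S H) := rfl
    rw [h2, h1]
    have h3 : (fun i => eval₂Hom (RingHom.id (AlgebraicClosure K)) z (S i))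
        = fun q : Fin m × M => ∑ j, A q.1 j * z (j, q.2) := by
      funext q
      simp [S]
    rw [h3]
    rfl
  have hz : bind₁ S H = 0 := by
    refine MvPolynomial.funext_set (fun _ => Set.range (algebraMap K (AlgebraicClosure K)))
      (fun _ => Set.infinite_range_of_injective (algebraMap K (AlgebraicClosure K)).injective) ?_
    intro z hz
    have hz' : ∀ q, ∃ y : K, algebraMap K _ y = z q := fun q => hz q (Set.mem_univ _)
    choose y hy using hz'
    rw [hev, map_zero]
    have h1 := hno (fun c => ∑ j, y (j, c) • b j)
    rw [← h1]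
    congr 1
    apply congrArg
    funext q
    rw [map_sum]
    refine Finset.sum_congr rfl fun j _ => ?_
    rw [map_smul, Algebra.smul_def, hy, mul_comm]
  refine MvPolynomial.funext fun y => ?_
  rw [map_zero]
  have hA := (Matrix.isUnit_iff_isUnit_det A).1 hu
  have h1 := hev (fun q => ∑ j, A⁻¹ q.1 j * y (j, q.2))
  rw [hz, map_zero] at h1
  rw [h1]
  apply congrArg (fun t => eval t H)
  funext q
  have h2 : ∀ c : M, A.mulVec (A⁻¹.mulVec (fun j => y (j, c))) = fun j => y (j, c) := by
    intro c
    rw [Matrix.mulVec_mulVec, Matrix.mul_nonsing_inv A hA, Matrix.one_mulVec]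
  have h3 := congrFun (h2 q.2) q.1
  simp only [Matrix.mulVec, dotProduct] at h3
  simpa using h3.symm

end Pool.Agent.DQ2.H93
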